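import Mathlib
import Pool.Graph.R_pool_sql_team_seeded_efc1946e.K1H88.GT.Main
import Pool.Agent.H27.KF.Cvx

/-!
# The Good–Churchhouse law for `μ(n) e(α φ(n))` and EVERY strictly convex sequence `φ`, windows up to `X ^ (1/2 - ε)`

Let `φ` be any sequence of integers such that for every `h ≥ 1` the differences `φ(n + h) - φ(n)` are pairwise different, for
instance any strictly convex or strictly concave sequence; nothing is supposed about its growth or its arithmetic. For almost
every real `α` the function `μ(n) e(α φ(n))` satisfies the law `V(X;H) ~ (6/π²) H` with a power saving, simultaneously for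
all large `X` and all `1 ≤ H ≤ X ^ (1/2 - ε)`, the lower half of the range of the question.

The library has integer polynomials of degree at least two (all `H ≤ X ^ (1 - ε)`); its general tools (`K1H88.GT`: the
variance from the correlations, the union bound) are used. For general convex sequences a divisor argument is not available.
-/

set_option autoImplicit false

namespace Pool.Agent.Results.MP_0575cc_nt.AllConvexPhases

open Finset MeasureTheory

/-- the sum of `a n` over the integers `n ≥ 0` with `|n - x| < H / 2` (the finite range contains all of them) -/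
noncomputable def M (a : ℕ → ℂ) (x H : ℝ) : ℂ :=
  ∑ n ∈ (range (⌈x + H⌉₊ + 1)).filter (fun n : ℕ => |(n : ℝ) - x| < H / 2), a n

/-- the mean square of `M a x H` over `X ≤ x ≤ 2 X` -/
noncomputable def V (a : ℕ → ℂ) (X H : ℝ) : ℝ := (1 / X) * ∫ x in X..2 * X, ‖M a x H‖ ^ 2

/-- the function `μ(n) e(α φ(n))`, where `e(y) = exp(2πiy)` -/
noncomputable def phase (φ : ℕ → ℤ) (α : ℝ) (n : ℕ) : ℂ :=
  ((ArithmeticFunction.moebius n : ℤ) : ℂ) * Complex.exp (2 * Real.pi * Complex.I * (α * (φ n : ℝ) : ℝ))

/-- for every `h ≥ 1` the differences `φ(n + h) - φ(n)` are pairwise different -/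
def DifferentDifferences (φ : ℕ → ℤ) : Prop :=
  ∀ h m n : ℕ, 1 ≤ h → φ (m + h) - φ m = φ (n + h) - φ n → m = n

/-- strictly convex sequences have this property -/
theorem of_convex (φ : ℕ → ℤ) (h : ∀ n, φ (n + 1) - φ n < φ (n + 2) - φ (n + 1)) : DifferentDifferences φ := by
  have h1 : StrictMono (fun n => φ (n + 1) - φ n) := strictMono_nat_of_lt_succ (fun n => h n)
  have key : ∀ k : ℕ, 1 ≤ k → StrictMono (fun n => φ (n + k) - φ n) := by
    intro k hk
    induction k, hk using Nat.le_induction with
    | base => exact h1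
    | succ k hk ih =>
      intro m n hmn
      have e1 := ih hmn
      have e2 := h1 (show m + k < n + k by omega)
      simp only at e1 e2 ⊢
      rw [show m + (k + 1) = m + k + 1 by ring, show n + (k + 1) = n + k + 1 by ring]
      linarith
  intro k m n hk hmn
  exact (key k hk).injective hmn

/-- For every `ε > 0` there is `δ > 0` such that for every sequence of integers `φ` with `DifferentDifferences φ` and almost
every real `α`: for all large `X` and all `1 ≤ H ≤ X ^ (1/2 - ε)` the mean square `V(X;H)` for the function `μ(n) e(α φ(n))`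
differs from `(6/π²) H` by at most `H X ^ (-δ)`. -/
theorem result : ∀ ε : ℝ, 0 < ε → ∃ δ : ℝ, 0 < δ ∧ ∀ φ : ℕ → ℤ, DifferentDifferences φ → ∀ᵐ α : ℝ,
    ∃ X0 : ℝ, 1 ≤ X0 ∧ ∀ X H : ℝ, X0 ≤ X → 1 ≤ H → H ≤ X ^ (1 / 2 - ε) →
      |V (phase φ α) X H - 6 / Real.pi ^ 2 * H| ≤ H * X ^ (-δ) := by
  intro ε hε
  obtain ⟨δ, hδ, h⟩ := Pool.Agent.H27.KF.Cvx.dist_ae Pool.Agent.K1H88.GT.uni Pool.Agent.K1H97.GT.t_MOMP (2 * ε)
    (by linarith)
  refine ⟨δ, hδ, fun φ hφ => ?_⟩
  filter_upwards [h φ hφ] with α hα
  obtain ⟨X0, hX0, h1⟩ := hα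
  refine ⟨X0, hX0, fun X H hX hH hHX => h1 X H hX hH ?_⟩
  have hX1 : 0 < X := by linarith
  calc H ^ 2 ≤ (X ^ (1 / 2 - ε)) ^ 2 := by gcongr
    _ = X ^ (1 - 2 * ε) := by
        rw [← Real.rpow_natCast, ← Real.rpow_mul hX1.le]
        congr 1
        push_cast
        ring

end Pool.Agent.Results.MP_0575cc_nt.AllConvexPhases
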