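import Mathlib
import Pool.Graph.R_pool_sql_team_seeded_efc1946e.K1H88.GT.Main
import Pool.Agent.H27.KF.Uni
import Pool.Agent.H60.KF.CNT
import Pool.Agent.H19.KF.MOM

/-!
# The Good–Churchhouse law for `μ(n) e(a n̄ / p)`, for almost all residue classes `a` modulo `p`

Let `p` be a prime and `n̄` the inverse of `n` modulo `p`. For all but `C p ^ (1 - δ)` of the residue classes `a` modulo `p`
the function `μ(n) e(a n̄ / p)` (the Möbius function twisted by the summands of the Kloosterman sums) satisfies the law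
`V(X;H) = (6/π²) H + O(H X ^ (-δ))`, simultaneously for all real `X ≥ p ^ ε` and `1 ≤ H ≤ X ^ (1 - ε)` with
`X H² ≤ p ^ (1 - ε)`; for `X ≤ p ^ (1/3 - ε)` these are all `H` up to `X ^ (1 - ε)`.

General tools of the library (`Pool.Agent.K1H88.GT`): the variance from the correlations, the union bound over a grid. New:
the number of solutions of `1/(m-h) - 1/m ≡ 1/(m'-h') - 1/m' (mod p)`, which is bounded, also when `p` is much smaller than
the numbers in the equation, by means of the divisors of `m² (m-h)² - h k p`.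
Pieces by helpers 19, 27, 60 (`Pool/Agent/H*/KF`).
-/

set_option autoImplicit false

namespace Pool.Agent.Results.MP_0575cc_nt.KloostermanTwists

open Finset MeasureTheory

/-- the sum of `a n` over the integers `n ≥ 0` with `|n - x| < H / 2` (the finite range contains all of them) -/
noncomputable def M (a : ℕ → ℂ) (x H : ℝ) : ℂ :=
  ∑ n ∈ (range (⌈x + H⌉₊ + 1)).filter (fun n : ℕ => |(n : ℝ) - x| < H / 2), a n

/-- the mean square of `M a x H` over `X ≤ x ≤ 2 X` -/
noncomputable def V (a : ℕ → ℂ) (X H : ℝ) : ℝ := (1 / X) * ∫ x in X..2 * X, ‖M a x H‖ ^ 2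

/-- the function `μ(n) e(a n̄ / p)`: `n̄` is the inverse of `n` modulo `p` (and `0` if `p` divides `n`), and
`ZMod.stdAddChar b = exp(2πi b / p)` -/
noncomputable def kl (p : ℕ) [NeZero p] (a : ZMod p) (n : ℕ) : ℂ :=
  ((ArithmeticFunction.moebius n : ℤ) : ℂ) * ZMod.stdAddChar (a * (n : ZMod p)⁻¹)

/-- the exceptional residue classes -/
def Exceptional (ε δ C : ℝ) (p : ℕ) [NeZero p] : Set (ZMod p) := {a | ∃ X H : ℝ, (p : ℝ) ^ ε ≤ X ∧ 1 ≤ H ∧
  H ≤ X ^ (1 - ε) ∧ X * H ^ 2 ≤ (p : ℝ) ^ (1 - ε) ∧ C * H * X ^ (-δ) < |V (kl p a) X H - 6 / Real.pi ^ 2 * H|}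

/-- For every `ε > 0` there are `δ > 0` and `C` such that for every prime `p` at most `C p ^ (1 - δ)` residue classes `a`
modulo `p` are exceptional: for all other `a` one has `|V(X;H) - (6/π²) H| ≤ C H X ^ (-δ)` for the function
`μ(n) e(a n̄ / p)` and all real `X`, `H` with `p ^ ε ≤ X`, `1 ≤ H ≤ X ^ (1 - ε)` and `X H² ≤ p ^ (1 - ε)`. -/
theorem result : ∀ ε : ℝ, 0 < ε → ∃ δ : ℝ, 0 < δ ∧ ∃ C : ℝ, 0 < C ∧ ∀ (p : ℕ) [Fact p.Prime],
    ((Exceptional ε δ C p).ncard : ℝ) ≤ C * (p : ℝ) ^ (1 - δ) :=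
  Pool.Agent.H27.KF.t_FINK Pool.Agent.K1H88.GT.uni Pool.Agent.H60.KF.t_CNT Pool.Agent.H19.KF.t_MOM

end Pool.Agent.Results.MP_0575cc_nt.KloostermanTwists
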