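import Mathlib
import Pool.Agent.H27.KF.Seq
import Pool.Agent.H19.KF.REP
import Pool.Agent.H50.KF.FIN
import Pool.Agent.H59.KF.FEW

/-!
# The Good–Churchhouse law for `μ(n) e(α φ(n))`, `φ(n) = β P(b_n) + O(1)`, `b_n` an ARBITRARY sequence of different integers

Let `P` be an integer polynomial of degree at least two, `β ≠ 0` real, and let `b_n` be ANY sequence of pairwise different
natural numbers of polynomial growth (in any order, for instance the primes, the integer parts `⌊γ n⌋` or `⌊n ^ c⌋`, or any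
permutation of the natural numbers of polynomial growth). Let `φ(n)` be integers with `φ(n) = β P(b_n) + O(1)`, for instance
`p_n ^ 2`, `⌊√2 n ^ 2⌋` or `⌊√2 ⌊√3 n⌋ ^ 2⌋`. Then for all real `α` outside a set of Hausdorff dimension less than one the
function `μ(n) e(α φ(n))` satisfies the law `V(X;H) ~ (6/π²) H` with a power saving, for all large `X` and simultaneously
all `1 ≤ H ≤ X ^ (1 - ε)`. In particular the statement of the question holds for it for almost every `α`.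

The library has the case `φ = P` (`PolynomialPhases`); its general tools are used here (the passage from the correlations
to the variance, the union bound, the large sieve, the covering argument). New: the number of solutions of
`φ(m) - φ(m-h) = φ(m') - φ(m'-h')` for these sequences.
Pieces by helpers 19, 27, 50, 59 (`Pool/Agent/H*/KF`).
-/

set_option autoImplicit false

namespace Pool.Agent.Results.MP_0575cc_nt.PhasesOfSequences

open Finset MeasureTheory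

/-- the sum of `a n` over the integers `n ≥ 0` with `|n - x| < H / 2` (the finite range contains all of them) -/
noncomputable def M (a : ℕ → ℂ) (x H : ℝ) : ℂ :=
  ∑ n ∈ (range (⌈x + H⌉₊ + 1)).filter (fun n : ℕ => |(n : ℝ) - x| < H / 2), a n

/-- the mean square of `M a x H` over `X ≤ x ≤ 2 X` -/
noncomputable def V (a : ℕ → ℂ) (X H : ℝ) : ℝ := (1 / X) * ∫ x in X..2 * X, ‖M a x H‖ ^ 2

/-- the function `μ(n) e(α φ(n))`, where `e(y) = exp(2πiy)` -/
noncomputable def phase (φ : ℕ → ℤ) (α : ℝ) (n : ℕ) : ℂ :=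
  ((ArithmeticFunction.moebius n : ℤ) : ℂ) * Complex.exp (2 * Real.pi * Complex.I * (α * (φ n : ℝ) : ℝ))

/-- the integers `φ(n)` are `β P(b_n) + O(1)`, where `b` is a sequence of pairwise different natural numbers with
`b_n ≤ K n ^ e` -/
structure Approx (P : Polynomial ℤ) (b : ℕ → ℕ) (e : ℕ) (φ : ℕ → ℤ) : Prop where
  inj : Function.Injective b
  growth : ∃ K : ℕ, ∀ n, 1 ≤ n → b n ≤ K * n ^ e
  close : ∃ β C : ℝ, β ≠ 0 ∧ ∀ n, |(φ n : ℝ) - β * ((P.eval (b n : ℤ) : ℤ) : ℝ)| ≤ C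

/-- the exceptional `α` for the sequence `φ`: the law fails for arbitrarily large `X` -/
def Exceptional (φ : ℕ → ℤ) (ε δ : ℝ) : Set ℝ :=
  {α | ¬ ∃ X0 : ℝ, 1 ≤ X0 ∧ ∀ X H : ℝ, X0 ≤ X → 1 ≤ H → H ≤ X ^ (1 - ε) →
    |V (phase φ α) X H - 6 / Real.pi ^ 2 * H| ≤ H * X ^ (-δ)}

theorem few : Pool.Agent.H27.KF.S_FEW :=
  Pool.Agent.H59.KF.t_FEW Pool.Agent.H19.KF.t_REP Pool.Agent.H50.KF.t_FIN

open Filter in
/-- the statement of the question -/
theorem question (P : Polynomial ℤ) (hP : 2 ≤ P.natDegree) (b : ℕ → ℕ) (e : ℕ) (φ : ℕ → ℤ) (hφ : Approx P b e φ) :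
    ∀ᵐ α : ℝ, ∀ ε : ℝ, 0 < ε → ∀ Hf : ℝ → ℝ,
    (∀ᶠ X in atTop, X ^ ε < Hf X ∧ Hf X < X ^ (1 - ε)) →
      Tendsto (fun X => V (phase φ α) X (Hf X) / (Hf X / (Real.pi ^ 2 / 6))) atTop (nhds 1) := by
  obtain ⟨hinj, ⟨K, hK⟩, β, C, hβ, hC⟩ := hφ
  have h : ∀ k : ℕ, ∀ᵐ α : ℝ, ∃ δ : ℝ, 0 < δ ∧
      ∃ X0 : ℝ, 1 ≤ X0 ∧ ∀ X H : ℝ, X0 ≤ X → 1 ≤ H → H ≤ X ^ (1 - 1 / ((k : ℝ) + 1)) →
        |V (phase φ α) X H - 6 / Real.pi ^ 2 * H| ≤ H * X ^ (-δ) := by
    intro k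
    obtain ⟨δ, hδ, h⟩ := Pool.Agent.H27.KF.seq_ae few (1 / ((k : ℝ) + 1)) (by positivity)
    filter_upwards [h P hP b K e hinj hK β C hβ φ hC] with α hα
    exact ⟨δ, hδ, hα⟩
  rw [← ae_all_iff] at h
  filter_upwards [h] with α hα
  intro ε hε Hf hHf
  obtain ⟨k, hk⟩ := exists_nat_one_div_lt hε
  obtain ⟨δ, hδ, X0, hX0, h2⟩ := hα k
  have hpi : 0 < Real.pi ^ 2 := by positivity
  rw [tendsto_iff_norm_sub_tendsto_zero]
  have h3 : Tendsto (fun X : ℝ => Real.pi ^ 2 / 6 * X ^ (-δ)) atTop (nhds 0) := by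
    have := (tendsto_rpow_neg_atTop hδ).const_mul (Real.pi ^ 2 / 6)
    simpa using this
  refine squeeze_zero' (Eventually.of_forall fun X => norm_nonneg _) ?_ h3
  filter_upwards [hHf, eventually_ge_atTop X0] with X hX hXX
  have hX1 : 1 ≤ X := hX0.trans hXX
  have hH1 : 1 ≤ Hf X := (Real.one_le_rpow hX1 hε.le).trans hX.1.le
  have hH0 : 0 < Hf X := by linarith
  have h4 := h2 X (Hf X) hXX hH1 (hX.2.le.trans
    (Real.rpow_le_rpow_of_exponent_le hX1 (by linarith)))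
  have h5 : V (phase φ α) X (Hf X) / (Hf X / (Real.pi ^ 2 / 6)) - 1 =
      (V (phase φ α) X (Hf X) - 6 / Real.pi ^ 2 * Hf X) * (Real.pi ^ 2 / 6 / Hf X) := by
    field_simp
  rw [h5, norm_mul, Real.norm_eq_abs, Real.norm_eq_abs, abs_of_pos (by positivity : 0 < Real.pi ^ 2 / 6 / Hf X)]
  calc |V (phase φ α) X (Hf X) - 6 / Real.pi ^ 2 * Hf X| * (Real.pi ^ 2 / 6 / Hf X)
      ≤ (Hf X * X ^ (-δ)) * (Real.pi ^ 2 / 6 / Hf X) := by gcongr
    _ = Real.pi ^ 2 / 6 * X ^ (-δ) := by field_simp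

open Filter in
/-- For every `ε > 0` there is `δ > 0` such that for all integer polynomials `P` of degree at least two and all integers
`φ(n) = β P(b_n) + O(1)`, `b` a sequence of pairwise different natural numbers with `b_n ≪ n ^ e`, the set of the `α` for
which the law does not hold with the saving `X ^ δ`, for all large `X` and all `1 ≤ H ≤ X ^ (1 - ε)`, has Hausdorff
dimension at most `1 - min(ε, 1/4) / (8 e deg P)`; and for almost all `α` the statement of the question is true with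
`μ(n) e(α φ(n))` in place of `μ(n)`. -/
theorem result :
    (∀ ε : ℝ, 0 < ε → ∃ δ : ℝ, 0 < δ ∧ ∀ P : Polynomial ℤ, 2 ≤ P.natDegree → ∀ (b : ℕ → ℕ) (e : ℕ) (φ : ℕ → ℤ),
      1 ≤ e → Approx P b e φ →
      dimH (Exceptional φ ε δ) ≤ ENNReal.ofReal (1 - min ε (1 / 4) / (8 * (e * P.natDegree)))) ∧
    (∀ P : Polynomial ℤ, 2 ≤ P.natDegree → ∀ (b : ℕ → ℕ) (e : ℕ) (φ : ℕ → ℤ), Approx P b e φ →
      ∀ᵐ α : ℝ, ∀ ε : ℝ, 0 < ε → ∀ Hf : ℝ → ℝ, (∀ᶠ X in atTop, X ^ ε < Hf X ∧ Hf X < X ^ (1 - ε)) →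
        Tendsto (fun X => V (phase φ α) X (Hf X) / (Hf X / (Real.pi ^ 2 / 6))) atTop (nhds 1)) := by
  refine ⟨fun ε hε => ?_, question⟩
  obtain ⟨δ, hδ, h⟩ := Pool.Agent.H27.KF.seq_dim few ε hε
  refine ⟨δ, hδ, fun P hP b e φ he hφ => ?_⟩
  obtain ⟨hinj, ⟨K, hK⟩, β, C, hβ, hC⟩ := hφ
  exact h P hP b K e hinj he hK β C hβ φ hC

end Pool.Agent.Results.MP_0575cc_nt.PhasesOfSequences
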